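import Pool.Agent.Helper18.SK.Defs

/-! Packet KE of MP_449ba1_co. -/

set_option autoImplicit false

open Pool.Agent.Helper18.SK

namespace Pool.Agent.Helper11.SK

theorem occ_nil {α : Type} [DecidableEq α] (x : List α) (hx : 1 ≤ x.length) : occ x [] = 0 := by
  cases x with
  | nil => simp at hx
  | cons a l => simp [occ, List.isPrefixOf]

theorem occ_cons {α : Type} [DecidableEq α] (x : List α) (a : α) (y : List α) :
    occ x (a :: y) = occ x y + (if x <+: (a :: y) then 1 else 0) := by
  unfold occ
  rw [List.tails_cons, List.countP_cons]
  congr 1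
  by_cases h : x <+: (a :: y)
  · rw [if_pos h, if_pos (List.isPrefixOf_iff_prefix.2 h)]
  · rw [if_neg h, if_neg (fun hc => h (List.isPrefixOf_iff_prefix.1 hc))]

theorem facs_cons {α : Type} (k : ℕ) (a : α) (y : List α) (h : k ≤ (a :: y).length) :
    facs k (a :: y) = (a :: y).take k :: facs k y := by
  unfold facs
  rw [List.tails_cons, List.filter_cons_of_pos (by simpa using h), List.map_cons]

theorem facs_short {α : Type} (k : ℕ) (y : List α) (h : y.length < k) :
    facs k y = [] := by
  unfold facs
  rw [List.map_eq_nil_iff, List.filter_eq_nil_iff]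
  intro t ht
  have h1 : t <:+ y := (List.mem_tails _ _).1 ht
  have h2 := h1.length_le
  simp only [decide_eq_true_eq]
  omega

theorem occ_eq {α : Type} [DecidableEq α] (k : ℕ) (hk : 1 ≤ k) (x : List α) (_hx1 : 1 ≤ x.length)
    (hxk : x.length ≤ k) (u : List α) (hu : k - 1 ≤ u.length) :
    occ x u = (facs k u).countP (fun t => decide (x <+: t)) +
      occ x (u.drop (u.length - (k - 1))) := by
  induction u with
  | nil =>
    rw [facs_short k [] (by simp; omega)]
    simp
  | cons a y ih =>
    by_cases h : (a :: y).length = k - 1
    · rw [facs_short k (a :: y) (by omega), h]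
      simp
    · have h1 : k ≤ (a :: y).length := by omega
      have h2 : k - 1 ≤ y.length := by
        rw [List.length_cons] at h1
        omega
      have h3 : (a :: y).drop ((a :: y).length - (k - 1)) = y.drop (y.length - (k - 1)) := by
        rw [List.length_cons, show y.length + 1 - (k - 1) = (y.length - (k - 1)) + 1 by omega,
          List.drop_succ_cons]
      have h4 : (x <+: (a :: y).take k) ↔ x <+: (a :: y) := by
        constructor
        · intro hc
          exact hc.trans (List.take_prefix _ _)
        · intro hc
          rw [List.prefix_take_iff]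
          exact ⟨hc, hxk⟩
      rw [occ_cons, ih h2, facs_cons k a y h1, h3, List.countP_cons]
      by_cases h5 : x <+: (a :: y)
      · rw [if_pos h5, if_pos (by simpa using h4.2 h5)]
        omega
      · rw [if_neg h5, if_neg (by simpa using fun hc => h5 (h4.1 hc))]
        omega

theorem ke : GKE := by
  intro α _ k hk u v hu hv hpre hsuf hcount x hx1 hxk
  rw [occ_eq k hk x hx1 hxk u hu, occ_eq k hk x hx1 hxk v hv, hsuf,
    (List.perm_iff_count.2 hcount).countP_eq]

end Pool.Agent.Helper11.SK
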